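import Mathlib

set_option autoImplicit false

/-!
# Packed 32-bit fields: a one-sided test for a prescribed sum of two fields
-/

namespace Pool.Agent.H97.TA

/-- the `i`-th 32-bit field -/
def fld (X i : ℕ) : ℕ := (X >>> (32 * i)) % 2 ^ 32

/-- the number all of whose `n` fields are `1` -/
def ones : ℕ → ℕ
  | 0 => 0
  | n + 1 => 1 + 2 ^ 32 * ones n

theorem fld_eq (X i : ℕ) : fld X i = X / 2 ^ (32 * i) % 2 ^ 32 := by
  rw [fld, Nat.shiftRight_eq_div_pow]

theorem fld_add (X Y i : ℕ) :
    ∃ c, c ≤ 1 ∧ fld (X + Y) i = (fld X i + fld Y i + c) % 2 ^ 32 := by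
  have h0 : 0 < 2 ^ (32 * i) := Nat.two_pow_pos _
  refine ⟨if 2 ^ (32 * i) ≤ X % 2 ^ (32 * i) + Y % 2 ^ (32 * i) then 1 else 0, ?_, ?_⟩
  · split_ifs <;> omega
  · rw [fld_eq, fld_eq, fld_eq, Nat.add_div h0]
    generalize X / 2 ^ (32 * i) = a
    generalize Y / 2 ^ (32 * i) = b
    generalize (if 2 ^ (32 * i) ≤ X % 2 ^ (32 * i) + Y % 2 ^ (32 * i) then 1 else 0) = c
    omega

theorem fld_xor (X Y i : ℕ) : fld (X ^^^ Y) i = fld X i ^^^ fld Y i := by
  rw [fld, fld, fld, Nat.shiftRight_xor_distrib, Nat.xor_mod_two_pow]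

theorem fld_top (X i : ℕ) : (fld X i).testBit 31 = X.testBit (32 * i + 31) := by
  rw [fld, Nat.testBit_mod_two_pow, Nat.testBit_shiftRight]
  simp

theorem fld_ones (t : ℕ) (ht : t < 2 ^ 32) (n i : ℕ) (hi : i < n) : fld (t * ones n) i = t := by
  rw [fld_eq]
  induction n generalizing i with
  | zero => omega
  | succ n ih =>
    rw [ones]
    cases i with
    | zero =>
      have : t * (1 + 2 ^ 32 * ones n) = t + 2 ^ 32 * (t * ones n) := by ring
      rw [this, Nat.mul_zero, pow_zero, Nat.div_one, Nat.add_mul_mod_self_left, Nat.mod_eq_of_lt ht]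
    | succ i =>
      have h1 : t * (1 + 2 ^ 32 * ones n) = t + 2 ^ 32 * (t * ones n) := by ring
      have h2 : 2 ^ (32 * (i + 1)) = 2 ^ 32 * 2 ^ (32 * i) := by rw [← pow_add]; congr 1; ring
      rw [h1, h2, ← Nat.div_div_eq_div_mul, Nat.add_mul_div_left _ _ (by norm_num : 0 < 2 ^ 32),
        Nat.div_eq_of_lt ht, zero_add]
      exact ih i (by omega)

theorem xor_succ_even (u : ℕ) : (2 * u + 1) ^^^ (2 * u) = 1 := by
  apply Nat.eq_of_testBit_eq
  intro j
  cases j with
  | zero => simp
  | succ j =>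
    have h1 : (2 * u + 1) / 2 = u := by omega
    have h2 : 2 * u / 2 = u := by omega
    rw [Nat.testBit_xor, Nat.testBit_succ, Nat.testBit_succ, h1, h2, Nat.testBit_succ]
    simp

/-- the value added in each field -/
def kk : ℕ := 2147483645

/-- the test number: the top bit of each field of `tst Y t o` is set if the field of `Y` is not `t` -/
def tst (Y t o : ℕ) : ℕ := (Y ^^^ (t * o)) + kk * o

/-- If field `i` of `Y` is `t` or `t + 1`, then the top bit of field `i` is not set. -/
theorem tst_bit {Y t n i : ℕ} (hi : i < n) (ht : t < 2 ^ 31) (he : t % 2 = 0)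
    (hY : fld Y i = t ∨ fld Y i = t + 1) : (tst Y t (ones n)).testBit (32 * i + 31) = false := by
  rw [← fld_top, tst]
  obtain ⟨c, hc, h⟩ := fld_add (Y ^^^ (t * ones n)) (kk * ones n) i
  have hk : fld (kk * ones n) i = kk := fld_ones kk (by norm_num [kk]) n i hi
  have ht1 : fld (t * ones n) i = t := fld_ones t (by omega) n i hi
  have hz : fld (Y ^^^ (t * ones n)) i ≤ 1 := by
    rw [fld_xor, ht1]
    rcases hY with hY | hY
    · rw [hY, Nat.xor_self]; omega
    · rw [hY]
      obtain ⟨u, rfl⟩ : ∃ u, t = 2 * u := ⟨t / 2, by omega⟩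
      rw [xor_succ_even]
  rw [h, hk]
  apply Nat.testBit_lt_two_pow
  have : fld (Y ^^^ (t * ones n)) i + kk + c < 2 ^ 31 := by simp only [kk]; omega
  omega

/-- top bits -/
def TOP : ℕ := 2147483648

/-- the alarm mask -/
def alarm (Y t t' o : ℕ) : ℕ := (tst Y t o &&& (tst Y t' o &&& (TOP * o))) ^^^ (TOP * o)

theorem alarm_bit {A G t M n i : ℕ} (hi : i < n) (ht : t + M < 2 ^ 31) (he : t % 4 = 0) (hM : M % 4 = 0)
    (h : fld A i + fld G i = t ∨ fld A i + fld G i = t + M) :
    (alarm (A + G) t (t + M) (ones n)).testBit (32 * i + 31) = true := by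
  have htop : (TOP * ones n).testBit (32 * i + 31) = true := by
    rw [← fld_top, fld_ones TOP (by norm_num [TOP]) n i hi]
    decide +kernel
  rw [alarm, Nat.testBit_xor, Nat.testBit_land, Nat.testBit_land, htop]
  obtain ⟨c, hc, hf⟩ := fld_add A G i
  rcases h with h | h
  · rw [tst_bit hi (by omega) (by omega)]
    · simp
    · rw [hf, h]; omega
  · rw [tst_bit (t := t + M) hi (by omega) (by omega)]
    · simp
    · rw [hf, h]; omega

/-- run through the nonzero fields of `m` -/
def scanT (ok : ℕ → Bool) : ℕ → ℕ → ℕ → Bool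
  | 0, i, m => Nat.beq m 0 || ok i
  | d + 1, i, m => Nat.beq m 0 ||
      (scanT ok d i (m % 2 ^ (32 * 2 ^ d)) && scanT ok d (i + 2 ^ d) (m >>> (32 * 2 ^ d)))

theorem scanT_sound {ok : ℕ → Bool} : ∀ (d i m : ℕ), scanT ok d i m = true →
    ∀ k, k < 32 * 2 ^ d → m.testBit k = true → ok (i + k / 32) = true := by
  intro d
  induction d with
  | zero =>
    intro i m h k hk hb
    rw [scanT, Bool.or_eq_true] at h
    rcases h with h | h
    · have := Nat.eq_of_beq_eq_true h
      subst this
      simp at hb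
    · have : k / 32 = 0 := by omega
      rw [this, add_zero]; exact h
  | succ d ih =>
    intro i m h k hk hb
    rw [scanT, Bool.or_eq_true, Bool.and_eq_true] at h
    rcases h with h | ⟨h1, h2⟩
    · have := Nat.eq_of_beq_eq_true h
      subst this
      simp at hb
    · rcases Nat.lt_or_ge k (32 * 2 ^ d) with hlt | hge
      · apply ih _ _ h1 _ hlt
        rw [Nat.testBit_mod_two_pow, hb]
        simp [hlt]
      · have e : 2 ^ (d + 1) = 2 * 2 ^ d := by ring
        rw [e] at hk
        generalize hp : 2 ^ d = p at *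
        have h3 := ih _ _ h2 (k - 32 * p) (by omega) (by
          rw [Nat.testBit_shiftRight]
          have : 32 * p + (k - 32 * p) = k := by omega
          rw [this]; exact hb)
        have e2 : i + p + (k - 32 * p) / 32 = i + k / 32 := by omega
        rwa [e2] at h3

/-- the reversed table, shifted so that field `i` is entry `S - i` -/
def rsh (R L S : ℕ) : ℕ := (R <<< (32 * S)) >>> (32 * (L - 1))

theorem fld_rsh (R L S i : ℕ) (h : S ≤ L - 1 + i) : fld (rsh R L S) i = fld R (L - 1 + i - S) := by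
  rw [fld, fld, rsh, ← Nat.shiftRight_add]
  congr 1
  have h1 : 32 * (L - 1) + 32 * i = 32 * S + 32 * (L - 1 + i - S) := by omega
  rw [h1, Nat.shiftRight_add, Nat.shiftLeft_shiftRight]

end Pool.Agent.H97.TA
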