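import Mathlib
import Pool.Graph.R_pool_sql_team_seeded_35f281b4.K7.H27.MK.SkelF
import Pool.Agent.H97.TA.Fld

set_option autoImplicit false

/-!
# Binary words coded by six blocks over a binary sequence with rotating weights
-/

namespace Pool.Agent.H97.TA

open Pool.Agent.K7.H27.MK
open Finset

/-- the last part of the descent: an explained coincidence gives an additive square of `s` -/
theorem desc_end {R : Type*} [CommRing R] {w : R} (hw : w ^ 2 + w + 1 = 0) {s : ℕ → ℕ} {L P : ℕ}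
    {q0 k1 k2 c r0 r1 n0 n1 : ℕ} (hk : k2 + c = 2 * k1 + 1)
    (e0 : L * q0 + r0 = n0) (e1 : L * (q0 + k1) + r1 = n1) (hP : n0 + P ≤ n1)
    (hm : Mat w P L c (k1 % 3) r0 r1 (s q0) (s (q0 + k1)) (s (q0 + k2))
      (-(w ^ (2 * q0) * (SS w s q0 + SS w s (q0 + k2) - 2 * SS w s (q0 + k1))))) :
    ∃ a m, Sq w s a m := by
  set D : R := SS w s q0 + SS w s (q0 + k2) - 2 * SS w s (q0 + k1) with hD
  have hDd : ∀ d : R, -(w ^ (2 * q0) * D) = d → D = -(w ^ q0 * d) := by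
    intro d hd
    have h5 : w ^ q0 * w ^ (2 * q0) = 1 := by rw [← pow_add, ← pow_three_mul hw q0]; congr 1; ring
    rw [← hd]
    linear_combination (-D) * h5
  rcases hm with ⟨rfl, hδ, hd, hg⟩ | ⟨rfl, hδ, hd⟩ | ⟨rfl, hδ, hd, hg⟩ | ⟨rfl, hδ, hd, hg⟩ | ⟨rfl, hδ, hd⟩
  · -- c = 1, δ = 0
    have hk1 : w ^ (q0 + k1) = w ^ q0 := pow_congr3 hw (by omega)
    have hk2' : w ^ (q0 + k2) = w ^ q0 := pow_congr3 hw (by omega)
    have hpos : 0 < k1 := by
      rcases Nat.eq_zero_or_pos k1 with h0 | h0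
      · exfalso
        subst h0
        have : k2 = 0 := by omega
        subst this
        have := hg (by simp) (by simp)
        simp only [add_zero] at e1
        omega
      · exact h0
    rcases hd with hd | hd
    · refine ⟨q0, k1 / 3, ⟨by omega, ?_⟩⟩
      have hD0 : D = 0 := by rw [hDd _ hd]; ring
      have a1 : q0 + 6 * (k1 / 3) = q0 + k2 := by omega
      have a2 : q0 + 3 * (k1 / 3) = q0 + k1 := by omega
      rw [a1, a2]
      linear_combination hD0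
    · refine ⟨q0 + 1, k1 / 3, ⟨by omega, ?_⟩⟩
      have hD0 := hDd _ hd
      have a1 : q0 + 1 + 6 * (k1 / 3) = q0 + k2 + 1 := by omega
      have a2 : q0 + 1 + 3 * (k1 / 3) = q0 + k1 + 1 := by omega
      rw [a1, a2, SS_succ, SS_succ, SS_succ, hk1, hk2']
      linear_combination hD0
  · -- c = 0, δ = 2
    have hk1 : w ^ (q0 + k1) = w ^ q0 * w ^ 2 := by rw [← pow_add]; exact pow_congr3 hw (by omega)
    have hk2' : w ^ (q0 + k2) = w ^ q0 * w ^ 2 := by rw [← pow_add]; exact pow_congr3 hw (by omega)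
    refine ⟨q0, (k1 + 1) / 3, ⟨by omega, ?_⟩⟩
    have hD0 := hDd _ hd
    have a1 : q0 + 6 * ((k1 + 1) / 3) = q0 + k2 + 1 := by omega
    have a2 : q0 + 3 * ((k1 + 1) / 3) = q0 + k1 + 1 := by omega
    rw [a1, a2, SS_succ, SS_succ, hk1, hk2']
    linear_combination hD0
  · -- c = 0, δ = 0
    have hk1 : w ^ (q0 + k1) = w ^ q0 := pow_congr3 hw (by omega)
    have hpos : 0 < k1 := by
      rcases Nat.eq_zero_or_pos k1 with h0 | h0
      · exfalso
        subst h0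
        have := hg (by simp)
        simp only [add_zero] at e1
        omega
      · exact h0
    refine ⟨q0 + 1, k1 / 3, ⟨by omega, ?_⟩⟩
    have hD0 := hDd _ hd
    have a1 : q0 + 1 + 6 * (k1 / 3) = q0 + k2 := by omega
    have a2 : q0 + 1 + 3 * (k1 / 3) = q0 + k1 + 1 := by omega
    rw [a1, a2, SS_succ, SS_succ, hk1]
    linear_combination hD0
  · -- c = 2, δ = 1
    have hpos : 1 < k1 := by
      by_contra h0
      have h1 : k1 = 1 := by omega
      subst h1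
      have h2 : k2 = 1 := by omega
      subst h2
      have := hg rfl
      have e1' : L * (q0 + 1) = L * q0 + L := by ring
      omega
    refine ⟨q0 + 1, (k1 - 1) / 3, ⟨by omega, ?_⟩⟩
    have hD0 := hDd _ hd
    have a1 : q0 + 1 + 6 * ((k1 - 1) / 3) = q0 + k2 := by omega
    have a2 : q0 + 1 + 3 * ((k1 - 1) / 3) = q0 + k1 := by omega
    rw [a1, a2, SS_succ]
    linear_combination hD0
  · -- c = 2, δ = 0
    have hk2' : w ^ (q0 + k2) = w ^ q0 * w ^ 2 := by rw [← pow_add]; exact pow_congr3 hw (by omega)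
    refine ⟨q0, k1 / 3, ⟨by omega, ?_⟩⟩
    have hD0 := hDd _ hd
    have a1 : q0 + 6 * (k1 / 3) = q0 + k2 + 1 := by omega
    have a2 : q0 + 3 * (k1 / 3) = q0 + k1 := by omega
    rw [a1, a2, SS_succ, hk2']
    linear_combination hD0

/-- number of `p < q` with `p % 3 = i` -/
def cnt (i q : ℕ) : ℤ := (((q + 2 - i) / 3 : ℕ) : ℤ)

/-- `∑_{p < q} V (p % 3)` -/
def SB (V : ℕ → ℤ) (q : ℕ) : ℤ := V 0 * cnt 0 q + V 1 * cnt 1 q + V 2 * cnt 2 q

theorem SB_zero (V : ℕ → ℤ) : SB V 0 = 0 := by simp [SB, cnt]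

theorem SB_succ (V : ℕ → ℤ) (q : ℕ) : SB V (q + 1) = SB V q + V (q % 3) := by
  obtain h | h | h : q % 3 = 0 ∨ q % 3 = 1 ∨ q % 3 = 2 := by omega
  · have h0 : cnt 0 (q + 1) = cnt 0 q + 1 := by simp only [cnt]; omega
    have h1 : cnt 1 (q + 1) = cnt 1 q := by simp only [cnt]; omega
    have h2 : cnt 2 (q + 1) = cnt 2 q := by simp only [cnt]; omega
    rw [SB, SB, h0, h1, h2, h]; ring
  · have h0 : cnt 0 (q + 1) = cnt 0 q := by simp only [cnt]; omega
    have h1 : cnt 1 (q + 1) = cnt 1 q + 1 := by simp only [cnt]; omega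
    have h2 : cnt 2 (q + 1) = cnt 2 q := by simp only [cnt]; omega
    rw [SB, SB, h0, h1, h2, h]; ring
  · have h0 : cnt 0 (q + 1) = cnt 0 q := by simp only [cnt]; omega
    have h1 : cnt 1 (q + 1) = cnt 1 q := by simp only [cnt]; omega
    have h2 : cnt 2 (q + 1) = cnt 2 q + 1 := by simp only [cnt]; omega
    rw [SB, SB, h0, h1, h2, h]; ring

/-- second differences of `cnt` -/
def KK (i j δ c : ℕ) : ℤ := cnt i j + cnt i (j + 7 + 2 * δ - c) - 2 * cnt i (j + 3 + δ)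

theorem KK_eq {i q0 k1 k2 c : ℕ} (hi : i < 3) (hc : c < 3) (hk : k2 + c = 2 * k1 + 1) :
    cnt i q0 + cnt i (q0 + k2) - 2 * cnt i (q0 + k1) = KK i (q0 % 3) (k1 % 3) c := by
  simp only [KK, cnt]
  interval_cases i <;> omega

/-- second differences of `SB V` -/
def BB (V : ℕ → ℤ) (j δ c : ℕ) : ℤ := V 0 * KK 0 j δ c + V 1 * KK 1 j δ c + V 2 * KK 2 j δ c

theorem BB_eq (V : ℕ → ℤ) {q0 k1 k2 c : ℕ} (hc : c < 3) (hk : k2 + c = 2 * k1 + 1) :
    SB V q0 + SB V (q0 + k2) - 2 * SB V (q0 + k1) = BB V (q0 % 3) (k1 % 3) c := by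
  rw [BB, ← KK_eq (i := 0) (by norm_num) hc hk, ← KK_eq (i := 1) (by norm_num) hc hk,
    ← KK_eq (i := 2) (by norm_num) hc hk, SB, SB, SB]
  ring

/-- a function coded by `s` with six blocks -/
structure Path (L : ℕ) (s : ℕ → ℕ) (inc f : ℕ → ℕ → ℕ → ℤ) (G : ℕ → ℤ) (d0 d1 : ℤ) : Prop where
  G0 : G 0 = 0
  Gs : ∀ q r, r < L → G (L * q + r + 1) = G (L * q + r) + inc (q % 3) (s q) r
  f0 : ∀ j, j < 3 → ∀ b, b < 2 → f j b 0 = 0
  fs : ∀ r, r < L → ∀ j, j < 3 → ∀ b, b < 2 → f j b (r + 1) = f j b r + inc j b r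
  e0 : f 0 1 L - f 0 0 L = d0
  e1 : f 1 1 L - f 1 0 L = d1
  e2 : f 2 1 L - f 2 0 L = -d0 - d1

/-- the vectors `d0, d1, - d0 - d1`, cyclically -/
def dd (d0 d1 : ℤ) (j : ℕ) : ℤ := if j % 3 = 0 then d0 else if j % 3 = 1 then d1 else -d0 - d1

theorem Path.endb {L : ℕ} {s : ℕ → ℕ} {inc f : ℕ → ℕ → ℕ → ℤ} {G : ℕ → ℤ} {d0 d1 : ℤ}
    (h : Path L s inc f G d0 d1) (j b : ℕ) (hj : j < 3) (hb : b < 2) :
    f j b L = f j 0 L + ((rt j b 0).1 * d0 + (rt j b 0).2 * d1) := by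
  have h0 := h.e0
  have h1 := h.e1
  have h2 := h.e2
  interval_cases j <;> interval_cases b <;> simp [rt] <;> linarith

theorem Path.eq {L : ℕ} {s : ℕ → ℕ} {inc f : ℕ → ℕ → ℕ → ℤ} {G : ℕ → ℤ} {d0 d1 : ℤ}
    (h : Path L s inc f G d0 d1) (hs : ∀ i, s i < 2) (q r : ℕ) (hr : r ≤ L) :
    G (L * q + r) = SB (fun j => f j 0 L) q + (QuadraticAlgebra.re (SS om s q) * d0
      + QuadraticAlgebra.im (SS om s q) * d1) + f (q % 3) (s q) r := by
  have step : ∀ q r, r ≤ L → G (L * q + r) = G (L * q) + f (q % 3) (s q) r := by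
    intro q r
    induction r with
    | zero => intro _; rw [h.f0 _ (Nat.mod_lt _ (by norm_num)) _ (hs q)]; simp
    | succ r ih =>
      intro hr
      rw [← add_assoc, h.Gs q r (by omega), ih (by omega),
        h.fs r (by omega) _ (Nat.mod_lt _ (by norm_num)) _ (hs q)]
      ring
  have base : ∀ q, G (L * q) = SB (fun j => f j 0 L) q + (QuadraticAlgebra.re (SS om s q) * d0
      + QuadraticAlgebra.im (SS om s q) * d1) := by
    intro q
    induction q with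
    | zero => rw [SB_zero]; simp [SS, h.G0]
    | succ q ih =>
      have e : L * (q + 1) = L * q + L := by ring
      have hp : om ^ q = om ^ (q % 3) := pow_congr3 om_rel (Nat.mod_mod q 3).symm
      have hc : (s q : Z) = ⟨(s q : ℤ), 0⟩ := by ext <;> simp
      have hj : q % 3 < 3 := Nat.mod_lt _ (by norm_num)
      rw [e, step q L le_rfl, ih, SB_succ, SS_succ, hp, mul_comm _ (om ^ (q % 3)), hc, rt_eq hj, h.endb _ _ hj (hs q)]
      simp only [QuadraticAlgebra.re_add, QuadraticAlgebra.im_add]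
      ring
  rw [step q r hr, base]

theorem rt_dd (d0 d1 : ℤ) {j : ℕ} (hj : j < 3) (x y : ℤ) :
    (rt j x y).1 * d0 + (rt j x y).2 * d1 = x * dd d0 d1 j + y * dd d0 d1 (j + 1) := by
  interval_cases j <;> simp [rt, dd] <;> ring

/-- the relation between the second difference of `G` and that of `SS om s` -/
theorem Path.rel {L : ℕ} {s : ℕ → ℕ} {inc f : ℕ → ℕ → ℕ → ℤ} {G : ℕ → ℤ} {d0 d1 : ℤ}
    (h : Path L s inc f G d0 d1) (hs : ∀ i, s i < 2) {q0 k1 k2 c r0 r1 r2 : ℕ} (hc : c < 3)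
    (hk : k2 + c = 2 * k1 + 1) (h0 : r0 < L) (h1 : r1 < L) (h2 : r2 < L) {d : Z}
    (hd : SS om s q0 + SS om s (q0 + k2) - 2 * SS om s (q0 + k1) = -(om ^ q0 * d)) :
    BB (fun j => f j 0 L) (q0 % 3) (k1 % 3) c + f (q0 % 3) (s q0) r0
      + f ((q0 % 3 + 2 * (k1 % 3) + 4 - c) % 3) (s (q0 + k2)) r2
      - 2 * f ((q0 % 3 + k1 % 3) % 3) (s (q0 + k1)) r1
      - (G (L * q0 + r0) + G (L * (q0 + k2) + r2) - 2 * G (L * (q0 + k1) + r1))
    = QuadraticAlgebra.re d * dd d0 d1 (q0 % 3) + QuadraticAlgebra.im d * dd d0 d1 (q0 % 3 + 1) := by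
  have hj : q0 % 3 < 3 := Nat.mod_lt _ (by norm_num)
  have j1 : (q0 % 3 + k1 % 3) % 3 = (q0 + k1) % 3 := by omega
  have j2 : (q0 % 3 + 2 * (k1 % 3) + 4 - c) % 3 = (q0 + k2) % 3 := by omega
  rw [j1, j2, h.eq hs q0 r0 h0.le, h.eq hs (q0 + k1) r1 h1.le, h.eq hs (q0 + k2) r2 h2.le,
    ← BB_eq _ hc hk, ← rt_dd d0 d1 hj]
  have hp : om ^ q0 = om ^ (q0 % 3) := pow_congr3 om_rel (Nat.mod_mod q0 3).symm
  have hd' : (⟨QuadraticAlgebra.re d, QuadraticAlgebra.im d⟩ : Z) = d := rfl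
  rw [hp, ← hd', rt_eq hj] at hd
  have e1 := congrArg QuadraticAlgebra.re hd
  have e2 := congrArg QuadraticAlgebra.im hd
  simp only [QuadraticAlgebra.re_add, QuadraticAlgebra.im_add, QuadraticAlgebra.re_sub,
    QuadraticAlgebra.im_sub, QuadraticAlgebra.re_neg, QuadraticAlgebra.im_neg, two_mul] at e1 e2
  linear_combination (-d0) * e1 - d1 * e2

end Pool.Agent.H97.TA
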