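import Mathlib
import Pool.Agent.H97.TA.Core

set_option autoImplicit false

/-!
# Words coded by six binary blocks: reduction of 2-abelian squares to a finite certificate
-/

namespace Pool.Agent.H97.TA

open Pool.Agent.K7.H27.MK
open Finset

/-- the word coded by the blocks `bl j b` along the sequence `s` -/
def xw (bl : ℕ → ℕ → ℕ → ℕ) (L : ℕ) (s : ℕ → ℕ) (n : ℕ) : ℕ := bl (n / L % 3) (s (n / L)) (n % L)

/-- the previous letter (`0` at the start) -/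
def prv (y : ℕ → ℕ) (n : ℕ) : ℕ := if n = 0 then 0 else y (n - 1)

/-- `0` if equal, `1` if different -/
def ne01 (u v : ℕ) : ℤ := if u = v then 0 else 1

/-- sum of the letters -/
def NN (y : ℕ → ℕ) (n : ℕ) : ℤ := ∑ k ∈ range n, (y k : ℤ)

/-- number of changes of letter -/
def TT (y : ℕ → ℕ) (n : ℕ) : ℤ := ∑ k ∈ range n, ne01 (y k) (prv y k)

theorem xw_eq {bl : ℕ → ℕ → ℕ → ℕ} {L : ℕ} {s : ℕ → ℕ} (q r : ℕ) (hr : r < L) :
    xw bl L s (L * q + r) = bl (q % 3) (s q) r := by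
  have e1 : (L * q + r) / L = q := by
    rw [Nat.mul_add_div (by omega), Nat.div_eq_of_lt hr, add_zero]
  have e2 : (L * q + r) % L = r := by rw [Nat.mul_add_mod, Nat.mod_eq_of_lt hr]
  rw [xw, e1, e2]

theorem prv_xw {bl : ℕ → ℕ → ℕ → ℕ} {L : ℕ} {s : ℕ → ℕ} (hs : ∀ i, s i < 2)
    (hend : ∀ j, j < 3 → ∀ b, b < 2 → bl j b (L - 1) = 0) (q r : ℕ) (hr : r < L) :
    prv (xw bl L s) (L * q + r) = prv (bl (q % 3) (s q)) r := by
  cases r with
  | zero =>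
    cases q with
    | zero => simp [prv]
    | succ q =>
      have h1 : L * (q + 1) + 0 ≠ 0 := by
        have : L * (q + 1) = L * q + L := by ring
        omega
      have h2 : L * (q + 1) + 0 - 1 = L * q + (L - 1) := by
        have : L * (q + 1) = L * q + L := by ring
        omega
      rw [prv, if_neg h1, h2, xw_eq q (L - 1) (by omega), hend _ (Nat.mod_lt _ (by norm_num)) _ (hs q)]
      simp [prv]
  | succ r =>
    have h1 : L * q + (r + 1) ≠ 0 := by omega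
    have h2 : L * q + (r + 1) - 1 = L * q + r := by omega
    rw [prv, if_neg h1, h2, xw_eq q r (by omega), prv, if_neg (by omega)]
    rfl

/-- the finite certificate -/
def Cert2 (bl : ℕ → ℕ → ℕ → ℕ) (L P : ℕ) (fN fT : ℕ → ℕ → ℕ → ℤ) (n0 n1 t0 t1 : ℤ) : Prop :=
  ∀ j, j < 3 → ∀ δ, δ < 3 → ∀ c, c < 3 → ∀ b0, b0 < 2 → ∀ b1, b1 < 2 → ∀ b2, b2 < 2 →
  ∀ r0, r0 < L → ∀ r1, r1 < L → ∀ r2, r2 < L → r0 + r2 + L = 2 * r1 + L * c →
  bl j b0 r0 = bl ((j + δ) % 3) b1 r1 →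
  prv (bl ((j + δ) % 3) b1) r1 = prv (bl ((j + 2 * δ + 4 - c) % 3) b2) r2 →
  ∀ d1 d2 : ℤ,
  BB (fun j => fN j 0 L) j δ c + fN j b0 r0 + fN ((j + 2 * δ + 4 - c) % 3) b2 r2
    - 2 * fN ((j + δ) % 3) b1 r1 = d1 * dd n0 n1 j + d2 * dd n0 n1 (j + 1) →
  BB (fun j => fT j 0 L) j δ c + fT j b0 r0 + fT ((j + 2 * δ + 4 - c) % 3) b2 r2
    - 2 * fT ((j + δ) % 3) b1 r1
    - (ne01 (bl j b0 r0) (prv (bl ((j + δ) % 3) b1) r1) - ne01 (bl j b0 r0) (prv (bl j b0) r0))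
    = d1 * dd t0 t1 j + d2 * dd t0 t1 (j + 1) →
  Mat om P L c δ r0 r1 b0 b1 b2 (⟨d1, d2⟩ : Z)

theorem no_ab {bl : ℕ → ℕ → ℕ → ℕ} {L P : ℕ} {s : ℕ → ℕ} {fN fT : ℕ → ℕ → ℕ → ℤ} {n0 n1 t0 t1 : ℤ}
    (hs : ∀ i, s i < 2) (hL : 0 < L) (hend : ∀ j, j < 3 → ∀ b, b < 2 → bl j b (L - 1) = 0)
    (pN : Path L s (fun j b r => (bl j b r : ℤ)) fN (NN (xw bl L s)) n0 n1)
    (pT : Path L s (fun j b r => ne01 (bl j b r) (prv (bl j b) r)) fT (TT (xw bl L s)) t0 t1)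
    (cert : Cert2 bl L P fN fT n0 n1 t0 t1) (hno : ∀ a m, ¬ Sq om s a m) {i n : ℕ} (hP : P ≤ n)
    (hn : 0 < n)
    (hA : NN (xw bl L s) i + NN (xw bl L s) (i + n + n) - 2 * NN (xw bl L s) (i + n) = 0)
    (hT : TT (xw bl L s) i + TT (xw bl L s) (i + n + n) - 2 * TT (xw bl L s) (i + n)
      = ne01 (xw bl L s i) (prv (xw bl L s) (i + n)) - ne01 (xw bl L s i) (prv (xw bl L s) i))
    (hx : xw bl L s i = xw bl L s (i + n)) (hpv : prv (xw bl L s) (i + n) = prv (xw bl L s) (i + n + n)) :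
    False := by
  have hq01 : i / L ≤ (i + n) / L := Nat.div_le_div_right (by omega)
  have hq12 : (i + n) / L ≤ (i + n + n) / L := Nat.div_le_div_right (by omega)
  have e0 : L * (i / L) + i % L = i := Nat.div_add_mod i L
  have e1 : L * ((i + n) / L) + (i + n) % L = i + n := Nat.div_add_mod (i + n) L
  have e2 : L * ((i + n + n) / L) + (i + n + n) % L = i + n + n := Nat.div_add_mod (i + n + n) L
  have l0 : i % L < L := Nat.mod_lt _ hL
  have l1 : (i + n) % L < L := Nat.mod_lt _ hL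
  have l2 : (i + n + n) % L < L := Nat.mod_lt _ hL
  generalize i / L = q0 at *
  generalize (i + n) / L = q1 at *
  generalize (i + n + n) / L = q2 at *
  generalize i % L = r0 at *
  generalize (i + n) % L = r1 at *
  generalize (i + n + n) % L = r2 at *
  have hsum : L * (q0 + q2) + (r0 + r2) = L * (2 * q1) + 2 * r1 := by
    have : L * q0 + r0 + (L * q2 + r2) = 2 * (L * q1 + r1) := by rw [e0, e1, e2]; ring
    linarith
  have hA' : q0 + q2 < 2 * q1 + 2 := by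
    by_contra hc
    have : L * (2 * q1 + 2) ≤ L * (q0 + q2) := Nat.mul_le_mul_left L (by omega)
    have h2 : L * (2 * q1 + 2) = L * (2 * q1) + 2 * L := by ring
    omega
  have hB : 2 * q1 < q0 + q2 + 2 := by
    by_contra hc
    have : L * (q0 + q2 + 2) ≤ L * (2 * q1) := Nat.mul_le_mul_left L (by omega)
    have h2 : L * (q0 + q2 + 2) = L * (q0 + q2) + 2 * L := by ring
    omega
  obtain ⟨c, hc3, hc⟩ : ∃ c, c < 3 ∧ q0 + q2 + c = 2 * q1 + 1 := ⟨2 * q1 + 1 - (q0 + q2), by omega, by omega⟩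
  have hr : r0 + r2 + L = 2 * r1 + L * c := by
    have : L * (q0 + q2 + c) = L * (2 * q1 + 1) := by rw [hc]
    have h1 : L * (q0 + q2 + c) = L * (q0 + q2) + L * c := by ring
    have h2 : L * (2 * q1 + 1) = L * (2 * q1) + L := by ring
    omega
  obtain ⟨k1, rfl⟩ : ∃ k1, q1 = q0 + k1 := ⟨q1 - q0, by omega⟩
  obtain ⟨k2, rfl⟩ : ∃ k2, q2 = q0 + k2 := ⟨q2 - q0, by omega⟩
  have hk : k2 + c = 2 * k1 + 1 := by omega
  have hj : q0 % 3 < 3 := Nat.mod_lt _ (by norm_num)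
  have hδ3 : k1 % 3 < 3 := Nat.mod_lt _ (by norm_num)
  have j1 : (q0 % 3 + k1 % 3) % 3 = (q0 + k1) % 3 := by omega
  have j2 : (q0 % 3 + 2 * (k1 % 3) + 4 - c) % 3 = (q0 + k2) % 3 := by omega
  set D : Z := SS om s q0 + SS om s (q0 + k2) - 2 * SS om s (q0 + k1) with hD
  set d : Z := -(om ^ (2 * q0) * D) with hd
  have hDd : D = -(om ^ q0 * d) := by
    have h5 : om ^ q0 * om ^ (2 * q0) = 1 := by
      rw [← pow_add, ← pow_three_mul om_rel q0]; congr 1; ring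
    rw [hd]
    linear_combination (-D) * h5
  have rN := pN.rel hs hc3 hk l0 l1 l2 (d := d) hDd
  have rT := pT.rel hs hc3 hk l0 l1 l2 (d := d) hDd
  rw [e0, e1, e2] at rN rT
  rw [hA, sub_zero] at rN
  rw [hT] at rT
  rw [← e1, ← e0] at rT
  rw [← e1, ← e0] at hx
  rw [← e2, ← e1] at hpv
  rw [xw_eq q0 r0 l0, prv_xw hs hend q0 r0 l0, prv_xw hs hend (q0 + k1) r1 l1] at rT
  rw [xw_eq q0 r0 l0, xw_eq (q0 + k1) r1 l1] at hx
  rw [prv_xw hs hend (q0 + k1) r1 l1, prv_xw hs hend (q0 + k2) r2 l2] at hpv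
  have hm := cert (q0 % 3) hj (k1 % 3) hδ3 c hc3 (s q0) (hs _) (s (q0 + k1)) (hs _) (s (q0 + k2)) (hs _)
    r0 l0 r1 l1 r2 l2 hr (by rw [j1]; exact hx) (by rw [j1, j2]; exact hpv)
    (QuadraticAlgebra.re d) (QuadraticAlgebra.im d) rN (by rw [← rT, j1])
  obtain ⟨a, m, hsq⟩ := desc_end (n0 := i) (n1 := i + n) om_rel hk e0 e1 (by omega) hm
  exact hno a m hsq

end Pool.Agent.H97.TA
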