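import Mathlib
import Pool.Agent.H97.TA.Word

set_option autoImplicit false

/-!
# 2-abelian equivalence and second differences
-/

namespace Pool.Agent.H97.TA

open Finset

/-- the factor of length `n` at position `i` -/
def factor (X : ℕ → Fin 2) (i n : ℕ) : List (Fin 2) := (List.range n).map (fun k => X (i + k))

/-- the number of occurrences of the nonempty word `w` as a factor of `u` -/
def occ (w u : List (Fin 2)) : ℕ :=
  ((Finset.range u.length).filter (fun p => (u.drop p).take w.length = w)).card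

/-- `k`-abelian equivalence -/
def KAb (k : ℕ) (u v : List (Fin 2)) : Prop :=
  ∀ w : List (Fin 2), 1 ≤ w.length → w.length ≤ k → occ w u = occ w v

theorem take1 (l : List (Fin 2)) (a : Fin 2) : l.take 1 = [a] ↔ l[0]? = some a := by
  rcases l with _ | ⟨c, l⟩ <;> simp

theorem take2 (l : List (Fin 2)) (a b : Fin 2) :
    l.take 2 = [a, b] ↔ l[0]? = some a ∧ l[1]? = some b := by
  rcases l with _ | ⟨c, _ | ⟨d, l⟩⟩ <;> simp

theorem factor_length (X : ℕ → Fin 2) (i n : ℕ) : (factor X i n).length = n := by simp [factor]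

theorem factor_get (X : ℕ → Fin 2) (i n p : ℕ) (hp : p < n) : (factor X i n)[p]? = some (X (i + p)) := by
  simp [factor, List.getElem?_range hp]

theorem factor_get_none (X : ℕ → Fin 2) (i n p : ℕ) (hp : n ≤ p) : (factor X i n)[p]? = none := by
  rw [List.getElem?_eq_none_iff, factor_length]; exact hp

theorem occ1 (X : ℕ → Fin 2) (i n : ℕ) (a : Fin 2) :
    (occ [a] (factor X i n) : ℤ) = ∑ k ∈ range n, if X (i + k) = a then 1 else 0 := by
  rw [occ, factor_length, Finset.card_filter]
  push_cast
  apply Finset.sum_congr rfl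
  intro p hp
  have hp := Finset.mem_range.mp hp
  have : ((factor X i n).drop p).take ([a] : List (Fin 2)).length = [a] ↔ X (i + p) = a := by
    show ((factor X i n).drop p).take 1 = [a] ↔ _
    rw [take1, List.getElem?_drop, add_zero, factor_get X i n p hp]
    simp
  simp only [this]

theorem occ2 (X : ℕ → Fin 2) (i n : ℕ) (a b : Fin 2) :
    (occ [a, b] (factor X i (n + 1)) : ℤ)
      = ∑ k ∈ range n, if X (i + k) = a ∧ X (i + k + 1) = b then 1 else 0 := by
  rw [occ, factor_length, Finset.card_filter]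
  push_cast
  have key : ∀ p, p < n + 1 → (((factor X i (n + 1)).drop p).take ([a, b] : List (Fin 2)).length = [a, b] ↔
      p < n ∧ X (i + p) = a ∧ X (i + p + 1) = b) := by
    intro p hp
    show ((factor X i (n + 1)).drop p).take 2 = [a, b] ↔ _
    rw [take2, List.getElem?_drop, List.getElem?_drop, add_zero, factor_get X i (n + 1) p hp]
    by_cases h : p < n
    · rw [factor_get X i (n + 1) (p + 1) (by omega), ← add_assoc]
      simp [h]
    · rw [factor_get_none X i (n + 1) (p + 1) (by omega)]
      simp [h]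
  rw [Finset.sum_range_succ]
  have hl : (if ((factor X i (n + 1)).drop n).take ([a, b] : List (Fin 2)).length = [a, b] then (1 : ℤ) else 0) = 0 := by
    rw [if_neg]
    rw [key n (by omega)]
    omega
  rw [hl, add_zero]
  apply Finset.sum_congr rfl
  intro p hp
  have hp := Finset.mem_range.mp hp
  simp only [key p (by omega), hp, true_and]

/-- first and last letters and the two increments, from the counts -/
theorem counts (X : ℕ → Fin 2) (i n : ℕ) :
    (occ [1] (factor X i (n + 1)) : ℤ) = (X i : ℕ) + occ [0, 1] (factor X i (n + 1))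
        + occ [1, 1] (factor X i (n + 1)) ∧
    (occ [1] (factor X i (n + 1)) : ℤ) = (X (i + n) : ℕ) + occ [1, 0] (factor X i (n + 1))
        + occ [1, 1] (factor X i (n + 1)) ∧
    NN (fun k => (X k : ℕ)) (i + (n + 1)) = NN (fun k => (X k : ℕ)) i + occ [1] (factor X i (n + 1)) ∧
    TT (fun k => (X k : ℕ)) (i + (n + 1)) = TT (fun k => (X k : ℕ)) i
        + ne01 (X i) (prv (fun k => (X k : ℕ)) i) + occ [0, 1] (factor X i (n + 1))
        + occ [1, 0] (factor X i (n + 1)) := by
  have h2 : ∀ t : Fin 2, t = 0 ∨ t = 1 := by decide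
  have v : ∀ k, (((X k : Fin 2) : ℕ) : ℤ) = if X k = 1 then 1 else 0 := by
    intro k
    rcases h2 (X k) with h | h <;> simp [h]
  rw [occ1, occ2, occ2, occ2]
  refine ⟨?_, ?_, ?_, ?_⟩
  · rw [Finset.sum_range_succ', add_zero, ← v i, add_comm, add_assoc, ← Finset.sum_add_distrib]
    congr 1
    apply Finset.sum_congr rfl
    intro k _
    rw [← add_assoc]
    rcases h2 (X (i + k)) with h | h <;> rcases h2 (X (i + k + 1)) with h' | h' <;> simp [h, h']
  · rw [Finset.sum_range_succ, ← v (i + n), add_comm, add_assoc, ← Finset.sum_add_distrib]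
    congr 1
    apply Finset.sum_congr rfl
    intro k _
    rcases h2 (X (i + k)) with h | h <;> rcases h2 (X (i + k + 1)) with h' | h' <;> simp [h, h']
  · rw [NN, Finset.sum_range_add, NN]
    congr 1
    apply Finset.sum_congr rfl
    intro k _
    exact v (i + k)
  · rw [TT, Finset.sum_range_add, TT, add_assoc, add_assoc]
    congr 1
    rw [Finset.sum_range_succ', add_zero, add_comm, ← Finset.sum_add_distrib]
    congr 1
    apply Finset.sum_congr rfl
    intro k _
    have e : prv (fun k => ((X k : Fin 2) : ℕ)) (i + (k + 1)) = X (i + k) := by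
      rw [prv, if_neg (by omega)]
      rfl
    rw [e, ← add_assoc]
    rcases h2 (X (i + k)) with h | h <;> rcases h2 (X (i + k + 1)) with h' | h' <;> simp [h, h', ne01]

/-- What a 2-abelian square of period `n` at `i` gives. -/
theorem square_gives {X : ℕ → Fin 2} {i n : ℕ} (hn : 0 < n)
    (h : KAb 2 (factor X i n) (factor X (i + n) n)) :
    let x : ℕ → ℕ := fun k => (X k : ℕ)
    NN x i + NN x (i + n + n) - 2 * NN x (i + n) = 0 ∧
    TT x i + TT x (i + n + n) - 2 * TT x (i + n) = ne01 (x i) (prv x (i + n)) - ne01 (x i) (prv x i) ∧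
    x i = x (i + n) ∧ prv x (i + n) = prv x (i + n + n) := by
  intro x
  obtain ⟨m, rfl⟩ : ∃ m, n = m + 1 := ⟨n - 1, by omega⟩
  obtain ⟨a1, a2, a3, a4⟩ := counts X i m
  obtain ⟨b1, b2, b3, b4⟩ := counts X (i + (m + 1)) m
  have h1 := h [1] (by simp) (by simp)
  have h01 := h [0, 1] (by simp) (by simp)
  have h10 := h [1, 0] (by simp) (by simp)
  have h11 := h [1, 1] (by simp) (by simp)
  rw [h1, h01, h11] at a1
  rw [h1, h10, h11] at a2
  rw [h1] at a3
  rw [h01, h10] at a4
  have f1 : ((X i : ℕ) : ℤ) = ((X (i + (m + 1)) : ℕ) : ℤ) := by linarith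
  have f2 : ((X (i + m) : ℕ) : ℤ) = ((X (i + (m + 1) + m) : ℕ) : ℤ) := by linarith
  have f1' : x i = x (i + (m + 1)) := by exact_mod_cast f1
  have f2' : x (i + m) = x (i + (m + 1) + m) := by exact_mod_cast f2
  have p1 : prv x (i + (m + 1)) = x (i + m) := by
    rw [prv, if_neg (by omega)]
    rfl
  have p2 : prv x (i + (m + 1) + (m + 1)) = x (i + (m + 1) + m) := by
    rw [prv, if_neg (by omega)]
    rfl
  refine ⟨?_, ?_, f1', ?_⟩
  · change NN (fun k => (X k : ℕ)) i + NN (fun k => (X k : ℕ)) (i + (m + 1) + (m + 1))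
      - 2 * NN (fun k => (X k : ℕ)) (i + (m + 1)) = 0
    linarith
  · have e : ne01 (x (i + (m + 1))) (prv x (i + (m + 1))) = ne01 (x i) (prv x (i + (m + 1))) := by rw [f1']
    change TT (fun k => (X k : ℕ)) i + TT (fun k => (X k : ℕ)) (i + (m + 1) + (m + 1))
      - 2 * TT (fun k => (X k : ℕ)) (i + (m + 1)) = _
    change TT (fun k => (X k : ℕ)) (i + (m + 1) + (m + 1)) = TT (fun k => (X k : ℕ)) (i + (m + 1))
        + ne01 (x (i + (m + 1))) (prv x (i + (m + 1))) + _ + _ at b4
    change TT (fun k => (X k : ℕ)) (i + (m + 1)) = TT (fun k => (X k : ℕ)) i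
        + ne01 (x i) (prv x i) + _ + _ at a4
    rw [e] at b4
    linarith
  · rw [p1, p2, f2']

end Pool.Agent.H97.TA
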