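import Mathlib
import Pool.Agent.H97.TA.Word

set_option autoImplicit false

/-!
# Packed kernel check of the certificate
-/

namespace Pool.Agent.H97.TA

open Pool.Agent.K7.H27.MK
open Finset

/-- data of a certificate -/
structure Dat where
  /-- block length -/
  L : ℕ
  /-- least forbidden period -/
  P : ℕ
  /-- modulus -/
  M : ℕ
  /-- first coordinate of `d0` -/
  n0 : ℤ
  /-- first coordinate of `d1` -/
  n1 : ℤ
  /-- second coordinate of `d0` -/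
  t0 : ℤ
  /-- second coordinate of `d1` -/
  t1 : ℤ
  /-- the blocks -/
  bl : ℕ → ℕ → ℕ → ℕ
  /-- sums of letters -/
  fN : ℕ → ℕ → ℕ → ℤ
  /-- numbers of changes -/
  fT : ℕ → ℕ → ℕ → ℤ
  /-- second differences of the ends -/
  bN : ℕ → ℕ → ℕ → ℤ
  /-- second differences of the ends -/
  bT : ℕ → ℕ → ℕ → ℤ
  /-- packed residues, reversed, for each letter -/
  A : ℕ → ℕ → ℕ → ℕ
  /-- packed residues, for each previous letter -/
  G : ℕ → ℕ → ℕ → ℕ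
  /-- residues for the middle position -/
  H : ℕ → ℕ → ℕ → ℕ
  /-- residues of the constants -/
  hb : ℕ → ℕ → ℕ → ℕ
  /-- `ones L` -/
  o : ℕ

/-- the linear form -/
def Dat.hh (D : Dat) (x y : ℤ) : ℤ := D.t1 * x - D.n1 * y

/-- the determinant -/
def Dat.det (D : Dat) : ℤ := D.n0 * D.t1 - D.n1 * D.t0

/-- the change between a position and the previous one -/
def Dat.ch (D : Dat) (j b r : ℕ) : ℤ := ne01 (D.bl j b r) (prv (D.bl j b) r)

/-- first coordinate -/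
def Dat.XN (D : Dat) (j δ c b0 b1 b2 r0 r1 r2 : ℕ) : ℤ :=
  D.bN j δ c + D.fN j b0 r0 + D.fN ((j + 2 * δ + 4 - c) % 3) b2 r2 - 2 * D.fN ((j + δ) % 3) b1 r1

/-- second coordinate -/
def Dat.XT (D : Dat) (j δ c b0 b1 b2 r0 r1 r2 : ℕ) : ℤ :=
  D.bT j δ c + D.fT j b0 r0 + D.fT ((j + 2 * δ + 4 - c) % 3) b2 r2 - 2 * D.fT ((j + δ) % 3) b1 r1
    - (ne01 (D.bl j b0 r0) (prv (D.bl ((j + δ) % 3) b1) r1) - ne01 (D.bl j b0 r0) (prv (D.bl j b0) r0))

/-- direct test of one triple -/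
def Dat.okE (D : Dat) (j δ c b0 b1 b2 r0 r1 r2 : ℕ) : Bool :=
  let X := D.XN j δ c b0 b1 b2 r0 r1 r2
  let Y := D.XT j δ c b0 b1 b2 r0 r1 r2
  let u1 := X * dd D.t0 D.t1 (j + 1) - Y * dd D.n0 D.n1 (j + 1)
  let u2 := dd D.n0 D.n1 j * Y - dd D.t0 D.t1 j * X
  (decide (u1 % D.det ≠ 0)) || (decide (u2 % D.det ≠ 0)) ||
    matb D.P D.L c δ r0 r1 b0 b1 b2 (u1 / D.det) (u2 / D.det)

/-- test of the position `r2 = k` -/
def Dat.okk (D : Dat) (j δ c b0 b1 b2 r1 S k : ℕ) : Bool :=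
  (!(Nat.ble k S)) || (!(Nat.blt (S - k) D.L)) ||
    D.okE j δ c b0 b1 b2 (S - k) r1 k

/-- the target residue -/
def Dat.tau (D : Dat) (j δ c b1 r1 : ℕ) : ℕ := (D.H ((j + δ) % 3) b1 r1 + D.hb j δ c) % D.M

/-- packed test of one row -/
def Dat.row (D : Dat) (j δ c b0 b1 b2 r1 : ℕ) : Bool :=
  Nat.blt (2 * r1 + D.L * c) D.L || Nat.ble (3 * D.L - 1) (2 * r1 + D.L * c) ||
  scanT (D.okk j δ c b0 b1 b2 r1 (2 * r1 + D.L * c - D.L)) 10 0
    (alarm (rsh (D.A j b0 (D.bl ((j + δ) % 3) b1 r1)) D.L (2 * r1 + D.L * c - D.L)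
        + D.G ((j + 2 * δ + 4 - c) % 3) b2 (prv (D.bl ((j + δ) % 3) b1) r1))
      (4 * D.tau j δ c b1 r1) (4 * D.tau j δ c b1 r1 + 4 * D.M) D.o)

/-- the tables are correct -/
structure Dat.Good (D : Dat) : Prop where
  hL : 0 < D.L
  hL2 : D.L ≤ 1024
  hM : 0 < D.M
  hM1 : 8 * D.M < 2 ^ 31
  hdet : D.det ≠ 0
  hMd : (D.M : ℤ) ∣ D.det
  ho : D.o = ones D.L
  hbN : ∀ j, j < 3 → ∀ δ, δ < 3 → ∀ c, c < 3 → BB (fun j => D.fN j 0 D.L) j δ c = D.bN j δ c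
  hbT : ∀ j, j < 3 → ∀ δ, δ < 3 → ∀ c, c < 3 → BB (fun j => D.fT j 0 D.L) j δ c = D.bT j δ c
  hA : ∀ r, r < D.L → ∀ j, j < 3 → ∀ b, b < 2 →
    (fld (D.A j b (D.bl j b r)) (D.L - 1 - r) : ℤ) = 4 * (D.hh (D.fN j b r) (D.fT j b r + D.ch j b r) % D.M)
  hG : ∀ r, r < D.L → ∀ j, j < 3 → ∀ b, b < 2 →
    (fld (D.G j b (prv (D.bl j b) r)) r : ℤ) = 4 * (D.hh (D.fN j b r) (D.fT j b r) % D.M)
  hH : ∀ r, r < D.L → ∀ j, j < 3 → ∀ b, b < 2 →
    (D.H j b r : ℤ) = (2 * D.hh (D.fN j b r) (D.fT j b r) + D.hh 0 (D.ch j b r)) % D.M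
  hhb : ∀ j, j < 3 → ∀ δ, δ < 3 → ∀ c, c < 3 →
    (D.hb j δ c : ℤ) = (-D.hh (D.bN j δ c) (D.bT j δ c)) % D.M

theorem dd_det (n0 n1 t0 t1 : ℤ) {j : ℕ} (hj : j < 3) :
    dd n0 n1 j * dd t0 t1 (j + 1) - dd n0 n1 (j + 1) * dd t0 t1 j = n0 * t1 - n1 * t0 := by
  interval_cases j <;> simp [dd] <;> ring

theorem hh_dd (D : Dat) {j : ℕ} (hj : j < 3) :
    D.det ∣ D.hh (dd D.n0 D.n1 j) (dd D.t0 D.t1 j) := by
  interval_cases j
  · refine ⟨1, ?_⟩; simp [dd, Dat.hh, Dat.det]; ring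
  · refine ⟨0, ?_⟩; simp [dd, Dat.hh]; ring
  · refine ⟨-1, ?_⟩; simp [dd, Dat.hh, Dat.det]; ring

theorem dd_mod (a b : ℤ) (j : ℕ) : dd a b j = dd a b (j % 3) := by simp [dd]

theorem okE_sound {D : Dat} (hdet : D.det ≠ 0) {j δ c b0 b1 b2 r0 r1 r2 : ℕ} (hj : j < 3)
    (h : D.okE j δ c b0 b1 b2 r0 r1 r2 = true) (d1 d2 : ℤ)
    (hN : D.XN j δ c b0 b1 b2 r0 r1 r2 = d1 * dd D.n0 D.n1 j + d2 * dd D.n0 D.n1 (j + 1))
    (hT : D.XT j δ c b0 b1 b2 r0 r1 r2 = d1 * dd D.t0 D.t1 j + d2 * dd D.t0 D.t1 (j + 1)) :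
    Mat om D.P D.L c δ r0 r1 b0 b1 b2 (⟨d1, d2⟩ : Z) := by
  have hd := dd_det D.n0 D.n1 D.t0 D.t1 hj
  have u1 : D.XN j δ c b0 b1 b2 r0 r1 r2 * dd D.t0 D.t1 (j + 1)
      - D.XT j δ c b0 b1 b2 r0 r1 r2 * dd D.n0 D.n1 (j + 1) = D.det * d1 := by
    rw [hN, hT, Dat.det, ← hd]; ring
  have u2 : dd D.n0 D.n1 j * D.XT j δ c b0 b1 b2 r0 r1 r2
      - dd D.t0 D.t1 j * D.XN j δ c b0 b1 b2 r0 r1 r2 = D.det * d2 := by
    rw [hN, hT, Dat.det, ← hd]; ring
  simp only [Dat.okE] at h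
  rw [u1, u2] at h
  simp only [Int.mul_emod_right, ne_eq, not_true_eq_false, decide_false, Bool.false_or] at h
  rw [Int.mul_ediv_cancel_left _ hdet, Int.mul_ediv_cancel_left _ hdet] at h
  exact matb_sound h

theorem Dat.row_sound {D : Dat} (hD : D.Good) {j δ c b0 b1 b2 r1 : ℕ} (hj : j < 3) (hδ : δ < 3)
    (hc : c < 3) (hb0 : b0 < 2) (hb1 : b1 < 2) (hb2 : b2 < 2) (h1 : r1 < D.L)
    (hrow : D.row j δ c b0 b1 b2 r1 = true) (r0 : ℕ) (h0 : r0 < D.L) (r2 : ℕ) (h2 : r2 < D.L)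
    (hr : r0 + r2 + D.L = 2 * r1 + D.L * c)
    (hx : D.bl j b0 r0 = D.bl ((j + δ) % 3) b1 r1)
    (hp : prv (D.bl ((j + δ) % 3) b1) r1 = prv (D.bl ((j + 2 * δ + 4 - c) % 3) b2) r2) (d1 d2 : ℤ)
    (hN : D.XN j δ c b0 b1 b2 r0 r1 r2 = d1 * dd D.n0 D.n1 j + d2 * dd D.n0 D.n1 (j + 1))
    (hT : D.XT j δ c b0 b1 b2 r0 r1 r2 = d1 * dd D.t0 D.t1 j + d2 * dd D.t0 D.t1 (j + 1)) :
    Mat om D.P D.L c δ r0 r1 b0 b1 b2 (⟨d1, d2⟩ : Z) := by
  have hj1 : (j + δ) % 3 < 3 := Nat.mod_lt _ (by norm_num)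
  have hj2 : (j + 2 * δ + 4 - c) % 3 < 3 := Nat.mod_lt _ (by norm_num)
  have hM := hD.hM
  have hM1 := hD.hM1
  rw [Dat.row, Bool.or_eq_true, Bool.or_eq_true] at hrow
  rcases hrow with (h | h) | h
  · have := blt_lt h; omega
  · have := Nat.le_of_ble_eq_true h; omega
  have hS : 2 * r1 + D.L * c - D.L = r0 + r2 := by omega
  rw [hS] at h
  have hbit : (alarm (rsh (D.A j b0 (D.bl ((j + δ) % 3) b1 r1)) D.L (r0 + r2)
        + D.G ((j + 2 * δ + 4 - c) % 3) b2 (prv (D.bl ((j + δ) % 3) b1) r1))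
      (4 * D.tau j δ c b1 r1) (4 * D.tau j δ c b1 r1 + 4 * D.M) D.o).testBit (32 * r2 + 31) = true := by
    have htau : D.tau j δ c b1 r1 < D.M := Nat.mod_lt _ hM
    rw [hD.ho]
    apply alarm_bit h2 (by omega) (by omega) (by omega)
    have e1 : D.L - 1 + r2 - (r0 + r2) = D.L - 1 - r0 := by omega
    have hA := hD.hA r0 h0 j hj b0 hb0
    have hG := hD.hG r2 h2 _ hj2 b2 hb2
    rw [hx] at hA
    rw [← hp] at hG
    have hf : fld (rsh (D.A j b0 (D.bl ((j + δ) % 3) b1 r1)) D.L (r0 + r2)) r2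
        = fld (D.A j b0 (D.bl ((j + δ) % 3) b1 r1)) (D.L - 1 - r0) := by
      rw [fld_rsh _ _ _ _ (by omega), e1]
    rw [hf]
    generalize fld (D.A j b0 (D.bl ((j + δ) % 3) b1 r1)) (D.L - 1 - r0) = fa at *
    generalize fld (D.G ((j + 2 * δ + 4 - c) % 3) b2 (prv (D.bl ((j + δ) % 3) b1) r1)) r2 = fg at *
    have hMz : (0 : ℤ) < D.M := by exact_mod_cast hM
    have ht : (D.tau j δ c b1 r1 : ℤ) = (2 * D.hh (D.fN ((j + δ) % 3) b1 r1) (D.fT ((j + δ) % 3) b1 r1)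
        + D.hh 0 (D.ch ((j + δ) % 3) b1 r1) + (-D.hh (D.bN j δ c) (D.bT j δ c))) % D.M := by
      rw [Dat.tau]
      push_cast
      rw [hD.hH r1 h1 _ hj1 b1 hb1, hD.hhb j hj δ hδ c hc, ← Int.add_emod]
    -- the congruence
    have hX : D.det ∣ D.hh (D.XN j δ c b0 b1 b2 r0 r1 r2) (D.XT j δ c b0 b1 b2 r0 r1 r2) := by
      have e : D.hh (D.XN j δ c b0 b1 b2 r0 r1 r2) (D.XT j δ c b0 b1 b2 r0 r1 r2)
          = d1 * D.hh (dd D.n0 D.n1 j) (dd D.t0 D.t1 j)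
            + d2 * D.hh (dd D.n0 D.n1 ((j + 1) % 3)) (dd D.t0 D.t1 ((j + 1) % 3)) := by
        rw [hN, hT, ← dd_mod, ← dd_mod]
        simp only [Dat.hh]; ring
      rw [e]
      exact dvd_add ((hh_dd D hj).mul_left _) ((hh_dd D (Nat.mod_lt _ (by norm_num))).mul_left _)
    have hXM := dvd_trans hD.hMd hX
    have hsplit : D.hh (D.XN j δ c b0 b1 b2 r0 r1 r2) (D.XT j δ c b0 b1 b2 r0 r1 r2)
        = D.hh (D.fN j b0 r0) (D.fT j b0 r0 + D.ch j b0 r0)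
          + D.hh (D.fN ((j + 2 * δ + 4 - c) % 3) b2 r2) (D.fT ((j + 2 * δ + 4 - c) % 3) b2 r2)
          - (2 * D.hh (D.fN ((j + δ) % 3) b1 r1) (D.fT ((j + δ) % 3) b1 r1)
          + D.hh 0 (D.ch ((j + δ) % 3) b1 r1) + (-D.hh (D.bN j δ c) (D.bT j δ c))) := by
      simp only [Dat.hh, Dat.XN, Dat.XT, Dat.ch, hx]; ring
    rw [hsplit] at hXM
    generalize D.hh (D.fN j b0 r0) (D.fT j b0 r0 + D.ch j b0 r0) = U at *
    generalize D.hh (D.fN ((j + 2 * δ + 4 - c) % 3) b2 r2) (D.fT ((j + 2 * δ + 4 - c) % 3) b2 r2) = V at *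
    generalize (2 * D.hh (D.fN ((j + δ) % 3) b1 r1) (D.fT ((j + δ) % 3) b1 r1)
          + D.hh 0 (D.ch ((j + δ) % 3) b1 r1) + (-D.hh (D.bN j δ c) (D.bT j δ c))) = W at *
    have hmod : (U % D.M + V % D.M) % D.M = W % D.M := by
      rw [← Int.add_emod]
      exact Int.emod_eq_emod_iff_emod_sub_eq_zero.mpr (Int.emod_eq_zero_of_dvd hXM)
    have hU0 := Int.emod_nonneg U hMz.ne'
    have hU1 := Int.emod_lt_of_pos U hMz
    have hV0 := Int.emod_nonneg V hMz.ne'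
    have hV1 := Int.emod_lt_of_pos V hMz
    rw [← ht] at hmod
    generalize U % (D.M : ℤ) = u at *
    generalize V % (D.M : ℤ) = v at *
    have hcase : u + v = (D.tau j δ c b1 r1 : ℤ) ∨ u + v = (D.tau j δ c b1 r1 : ℤ) + D.M := by
      rcases lt_or_ge (u + v) (D.M : ℤ) with hlt | hge
      · left; rw [← hmod, Int.emod_eq_of_lt (by omega) hlt]
      · right
        have : (u + v) % (D.M : ℤ) = u + v - D.M := by
          rw [← Int.sub_emod_right, Int.emod_eq_of_lt (by omega) (by omega)]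
        omega
    rcases hcase with hh | hh
    · left; omega
    · right; omega
  have hL2 := hD.hL2
  have hok := scanT_sound _ _ _ h _ (by omega) hbit
  have hk : 0 + (32 * r2 + 31) / 32 = r2 := by omega
  rw [hk, Dat.okk] at hok
  have e2 : r0 + r2 - r2 = r0 := by omega
  rw [e2, Bool.or_eq_true, Bool.or_eq_true] at hok
  rcases hok with (h' | h') | h'
  · have : Nat.ble r2 (r0 + r2) = true := Nat.ble_eq.mpr (by omega)
    rw [this] at h'; simp at h'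
  · have : Nat.blt r0 D.L = true := Nat.ble_eq.mpr (by omega)
    rw [this] at h'; simp at h'
  · exact okE_sound hD.hdet hj h' d1 d2 hN hT

/-- all the types for one `r1` -/
def Dat.all (D : Dat) (r1 : ℕ) : Bool :=
  allB (fun j => allB (fun δ => allB (fun c => allB (fun b0 => allB (fun b1 => allB (fun b2 =>
    D.row j δ c b0 b1 b2 r1) 2) 2) 2) 3) 3) 3

/-- rows `lo, ..., lo + n - 1` -/
def Dat.rows (D : Dat) (lo n : ℕ) : Bool := allB (fun i => D.all (lo + i)) n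

theorem Dat.rows_sound {D : Dat} {lo n : ℕ} (h : D.rows lo n = true) (r1 : ℕ) (h1 : lo ≤ r1)
    (h2 : r1 < lo + n) : D.all r1 = true := by
  have h3 := allB_sound h (r1 - lo) (by omega)
  have : lo + (r1 - lo) = r1 := by omega
  rwa [this] at h3

theorem Dat.cert {D : Dat} (hD : D.Good) (hall : ∀ r1, r1 < D.L → D.all r1 = true) :
    Cert2 D.bl D.L D.P D.fN D.fT D.n0 D.n1 D.t0 D.t1 := by
  intro j hj δ hδ c hc b0 hb0 b1 hb1 b2 hb2 r0 h0 r1 h1 r2 h2 hr hx hp d1 d2 hN hT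
  have h := allB_sound (allB_sound (allB_sound (allB_sound (allB_sound (allB_sound
    (hall r1 h1) j hj) δ hδ) c hc) b0 hb0) b1 hb1) b2 hb2
  rw [hD.hbN j hj δ hδ c hc] at hN
  rw [hD.hbT j hj δ hδ c hc] at hT
  exact Dat.row_sound hD hj hδ hc hb0 hb1 hb2 h1 h r0 h0 r2 h2 hr hx hp d1 d2 hN hT

/-- the table conditions at one position and one block -/
def Dat.tabs (D : Dat) (r j b : ℕ) : Bool :=
  decide ((fld (D.A j b (D.bl j b r)) (D.L - 1 - r) : ℤ)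
    = 4 * (D.hh (D.fN j b r) (D.fT j b r + D.ch j b r) % D.M)) &&
  decide ((fld (D.G j b (prv (D.bl j b) r)) r : ℤ) = 4 * (D.hh (D.fN j b r) (D.fT j b r) % D.M)) &&
  decide ((D.H j b r : ℤ) = (2 * D.hh (D.fN j b r) (D.fT j b r) + D.hh 0 (D.ch j b r)) % D.M) &&
  decide (D.fN j b (r + 1) = D.fN j b r + D.bl j b r) &&
  decide (D.fT j b (r + 1) = D.fT j b r + D.ch j b r)

/-- the table conditions -/
def Dat.tabAll (D : Dat) : Bool := allB (fun r => allB (fun j => allB (fun b => D.tabs r j b) 2) 3) D.L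

/-- the constants -/
def Dat.cons (D : Dat) (j δ c : ℕ) : Bool :=
  decide (BB (fun j => D.fN j 0 D.L) j δ c = D.bN j δ c) &&
  decide (BB (fun j => D.fT j 0 D.L) j δ c = D.bT j δ c) &&
  decide ((D.hb j δ c : ℤ) = (-D.hh (D.bN j δ c) (D.bT j δ c)) % D.M)

/-- the constants -/
def Dat.consAll (D : Dat) : Bool := allB (fun j => allB (fun δ => allB (fun c => D.cons j δ c) 3) 3) 3

/-- starts and ends -/
def Dat.endj (D : Dat) (j b : ℕ) : Bool :=
  decide (D.fN j b 0 = 0) && decide (D.fT j b 0 = 0) && decide (D.bl j b (D.L - 1) = 0)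

/-- starts and ends -/
def Dat.ends (D : Dat) : Bool := allB (fun j => allB (fun b => D.endj j b) 2) 3 &&
  decide (D.fN 0 1 D.L - D.fN 0 0 D.L = D.n0) && decide (D.fN 1 1 D.L - D.fN 1 0 D.L = D.n1) &&
  decide (D.fN 2 1 D.L - D.fN 2 0 D.L = -D.n0 - D.n1) &&
  decide (D.fT 0 1 D.L - D.fT 0 0 D.L = D.t0) && decide (D.fT 1 1 D.L - D.fT 1 0 D.L = D.t1) &&
  decide (D.fT 2 1 D.L - D.fT 2 0 D.L = -D.t0 - D.t1)

theorem Dat.good {D : Dat} (hL : 0 < D.L) (hL2 : D.L ≤ 1024) (hM : 0 < D.M) (hM1 : 8 * D.M < 2 ^ 31) (hdet : D.det ≠ 0)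
    (hMd : D.det % D.M = 0) (ho : D.o = ones D.L) (ht : D.tabAll = true) (hc : D.consAll = true) : D.Good := by
  have h1 : ∀ r, r < D.L → ∀ j, j < 3 → ∀ b, b < 2 → D.tabs r j b = true := fun r hr j hj b hb =>
    allB_sound (allB_sound (allB_sound ht r hr) j hj) b hb
  have h2 : ∀ j, j < 3 → ∀ δ, δ < 3 → ∀ c, c < 3 → D.cons j δ c = true := fun j hj δ hδ c hc' =>
    allB_sound (allB_sound (allB_sound hc j hj) δ hδ) c hc'
  refine ⟨hL, hL2, hM, hM1, hdet, Int.dvd_of_emod_eq_zero hMd, ho, ?_, ?_, ?_, ?_, ?_, ?_⟩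
  · intro j hj δ hδ c hc'
    have := h2 j hj δ hδ c hc'
    simp only [Dat.cons, Bool.and_eq_true, decide_eq_true_eq] at this
    exact this.1.1
  · intro j hj δ hδ c hc'
    have := h2 j hj δ hδ c hc'
    simp only [Dat.cons, Bool.and_eq_true, decide_eq_true_eq] at this
    exact this.1.2
  · intro r hr j hj b hb
    have := h1 r hr j hj b hb
    simp only [Dat.tabs, Bool.and_eq_true, decide_eq_true_eq] at this
    exact this.1.1.1.1
  · intro r hr j hj b hb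
    have := h1 r hr j hj b hb
    simp only [Dat.tabs, Bool.and_eq_true, decide_eq_true_eq] at this
    exact this.1.1.1.2
  · intro r hr j hj b hb
    have := h1 r hr j hj b hb
    simp only [Dat.tabs, Bool.and_eq_true, decide_eq_true_eq] at this
    exact this.1.1.2
  · intro j hj δ hδ c hc'
    have := h2 j hj δ hδ c hc'
    simp only [Dat.cons, Bool.and_eq_true, decide_eq_true_eq] at this
    exact this.2

/-- The word coded by the blocks of a correct certificate has no 2-abelian square of period at least `P`. -/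
theorem Dat.no_ab {D : Dat} (hD : D.Good) (ht : D.tabAll = true) (he : D.ends = true)
    (hall : ∀ r1, r1 < D.L → D.all r1 = true) {s : ℕ → ℕ} (hs : ∀ i, s i < 2)
    (hno : ∀ a m, ¬ Sq om s a m) {i n : ℕ} (hP : D.P ≤ n) (hn : 0 < n)
    (hA : NN (xw D.bl D.L s) i + NN (xw D.bl D.L s) (i + n + n) - 2 * NN (xw D.bl D.L s) (i + n) = 0)
    (hT : TT (xw D.bl D.L s) i + TT (xw D.bl D.L s) (i + n + n) - 2 * TT (xw D.bl D.L s) (i + n)
      = ne01 (xw D.bl D.L s i) (prv (xw D.bl D.L s) (i + n)) - ne01 (xw D.bl D.L s i) (prv (xw D.bl D.L s) i))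
    (hx : xw D.bl D.L s i = xw D.bl D.L s (i + n))
    (hpv : prv (xw D.bl D.L s) (i + n) = prv (xw D.bl D.L s) (i + n + n)) : False := by
  have h1 : ∀ r, r < D.L → ∀ j, j < 3 → ∀ b, b < 2 → D.tabs r j b = true := fun r hr j hj b hb =>
    allB_sound (allB_sound (allB_sound ht r hr) j hj) b hb
  simp only [Dat.ends, Bool.and_eq_true, decide_eq_true_eq] at he
  obtain ⟨⟨⟨⟨⟨⟨he, eN0⟩, eN1⟩, eN2⟩, eT0⟩, eT1⟩, eT2⟩ := he
  have h3 : ∀ j, j < 3 → ∀ b, b < 2 → D.endj j b = true := fun j hj b hb =>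
    allB_sound (allB_sound he j hj) b hb
  have hend : ∀ j, j < 3 → ∀ b, b < 2 → D.bl j b (D.L - 1) = 0 := by
    intro j hj b hb
    have := h3 j hj b hb
    simp only [Dat.endj, Bool.and_eq_true, decide_eq_true_eq] at this
    exact this.2
  have pN : Path D.L s (fun j b r => (D.bl j b r : ℤ)) D.fN (NN (xw D.bl D.L s)) D.n0 D.n1 := by
    refine ⟨by simp [NN], ?_, ?_, ?_, eN0, eN1, eN2⟩
    · intro q r hr
      rw [NN, Finset.sum_range_succ, ← NN, xw_eq q r hr]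
    · intro j hj b hb
      have := h3 j hj b hb
      simp only [Dat.endj, Bool.and_eq_true, decide_eq_true_eq] at this
      exact this.1.1
    · intro r hr j hj b hb
      have := h1 r hr j hj b hb
      simp only [Dat.tabs, Bool.and_eq_true, decide_eq_true_eq] at this
      exact this.1.2
  have pT : Path D.L s (fun j b r => ne01 (D.bl j b r) (prv (D.bl j b) r)) D.fT (TT (xw D.bl D.L s))
      D.t0 D.t1 := by
    refine ⟨by simp [TT], ?_, ?_, ?_, eT0, eT1, eT2⟩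
    · intro q r hr
      rw [TT, Finset.sum_range_succ, ← TT, xw_eq q r hr, prv_xw hs hend q r hr]
    · intro j hj b hb
      have := h3 j hj b hb
      simp only [Dat.endj, Bool.and_eq_true, decide_eq_true_eq] at this
      exact this.1.2
    · intro r hr j hj b hb
      have := h1 r hr j hj b hb
      simp only [Dat.tabs, Bool.and_eq_true, decide_eq_true_eq] at this
      exact this.2
  exact Pool.Agent.H97.TA.no_ab hs hD.hL hend pN pT (Dat.cert hD hall) hno hP hn hA hT hx hpv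

/-- six-fold choice -/
def sel {α : Type} (a0 a1 a2 a3 a4 a5 : α) (j b : ℕ) : α :=
  match j with
  | 0 => match b with
    | 0 => a0
    | _ => a1
  | 1 => match b with
    | 0 => a2
    | _ => a3
  | _ => match b with
    | 0 => a4
    | _ => a5

end Pool.Agent.H97.TA
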