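import Mathlib
import Pool.Agent.H97.TA.Ab
import Pool.Agent.H97.TA.Cert

set_option autoImplicit false

/-!
# Avoidability of long 2-abelian squares from a certificate
-/

namespace Pool.Agent.H97.TA

open Pool.Agent.K7.H27.MK
open Finset

/-- Some infinite binary word has no factor that is a 2-abelian square of period at least `k`. -/
def Avoidable (k : ℕ) : Prop :=
  ∃ X : ℕ → Fin 2, ∀ (i : ℕ) (u v : List (Fin 2)), u ≠ [] → v ≠ [] →
    factor X i (u.length + v.length) = u ++ v → KAb 2 u v → u.length < k

theorem factor_append (X : ℕ → Fin 2) (i m n : ℕ) :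
    factor X i (m + n) = factor X i m ++ factor X (i + m) n := by
  simp only [factor, List.range_add, List.map_append, List.map_map]
  congr 1
  apply List.map_congr_left
  intro k _
  simp [add_assoc]

theorem kab_length {X : ℕ → Fin 2} {i i' m n : ℕ} (h : KAb 2 (factor X i m) (factor X i' n)) : m = n := by
  have hc : ∀ j l, (occ [0] (factor X j l) : ℤ) + occ [1] (factor X j l) = l := by
    intro j l
    rw [occ1, occ1, ← Finset.sum_add_distrib]
    have : ∀ k ∈ range l, ((if X (j + k) = 0 then (1 : ℤ) else 0) + if X (j + k) = 1 then 1 else 0) = 1 := by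
      intro k _
      have h2 : ∀ t : Fin 2, t = 0 ∨ t = 1 := by decide
      rcases h2 (X (j + k)) with h | h <;> simp [h]
    rw [Finset.sum_congr rfl this]
    simp
  have h0 := h [0] (by simp) (by simp)
  have h1 := h [1] (by simp) (by simp)
  have a := hc i m
  have b := hc i' n
  rw [h0, h1] at a
  have : (m : ℤ) = n := by linarith
  exact_mod_cast this

theorem avoidable_of {X : ℕ → Fin 2} {P : ℕ}
    (h : ∀ i n : ℕ, P ≤ n → 0 < n → ¬ KAb 2 (factor X i n) (factor X (i + n) n)) : Avoidable P := by
  refine ⟨X, ?_⟩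
  intro i u v hu hv hf hk
  by_contra hlt
  rw [factor_append] at hf
  have hl : (factor X i u.length).length = u.length := factor_length _ _ _
  obtain ⟨e1, e2⟩ := List.append_inj hf hl
  rw [← e1, ← e2] at hk
  have hlen := kab_length hk
  rw [← hlen] at hk
  exact h i u.length (by omega) (List.length_pos_iff.mpr hu) hk

/-- A correct certificate proves avoidability. -/
theorem Dat.avoid {D : Dat} (hD : D.Good) (ht : D.tabAll = true) (he : D.ends = true)
    (hall : ∀ r1, r1 < D.L → D.all r1 = true) (hbl : ∀ j b r, D.bl j b r < 2) : Avoidable D.P := by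
  have hlt : ∀ n, xw D.bl D.L SkelF.s n < 2 := fun n => hbl _ _ _
  apply avoidable_of (X := fun n => ⟨xw D.bl D.L SkelF.s n, hlt n⟩)
  intro i n hP hn hk
  obtain ⟨g1, g2, g3, g4⟩ := square_gives hn hk
  exact Dat.no_ab hD ht he hall SkelF.s_lt SkelF.s_nosq hP hn g1 g2 g3 g4

end Pool.Agent.H97.TA
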