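import Mathlib
import Pool.Agent.H97.TA.Fin

set_option autoImplicit false

/-!
# Every long binary word contains a 2-abelian square of period at least 2
-/

namespace Pool.Agent.H97.TA

open Pool.Agent.K7.H27.MK
open Finset

theorem occ_two_sum (X : ℕ → Fin 2) (i n : ℕ) :
    (occ [0, 0] (factor X i (n + 1)) : ℤ) + occ [0, 1] (factor X i (n + 1)) + occ [1, 0] (factor X i (n + 1))
      + occ [1, 1] (factor X i (n + 1)) = n := by
  rw [occ2, occ2, occ2, occ2, ← Finset.sum_add_distrib, ← Finset.sum_add_distrib, ← Finset.sum_add_distrib]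
  have : ∀ k ∈ range n, ((((if X (i + k) = 0 ∧ X (i + k + 1) = 0 then (1 : ℤ) else 0)
      + if X (i + k) = 0 ∧ X (i + k + 1) = 1 then 1 else 0)
      + if X (i + k) = 1 ∧ X (i + k + 1) = 0 then 1 else 0)
      + if X (i + k) = 1 ∧ X (i + k + 1) = 1 then 1 else 0) = 1 := by
    intro k _
    have h2 : ∀ t : Fin 2, t = 0 ∨ t = 1 := by decide
    rcases h2 (X (i + k)) with h | h <;> rcases h2 (X (i + k + 1)) with h' | h' <;> simp [h, h']
  rw [Finset.sum_congr rfl this]
  simp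

theorem occ_one_sum (X : ℕ → Fin 2) (i n : ℕ) :
    (occ [0] (factor X i n) : ℤ) + occ [1] (factor X i n) = n := by
  rw [occ1, occ1, ← Finset.sum_add_distrib]
  have : ∀ k ∈ range n, ((if X (i + k) = 0 then (1 : ℤ) else 0) + if X (i + k) = 1 then 1 else 0) = 1 := by
    intro k _
    have h2 : ∀ t : Fin 2, t = 0 ∨ t = 1 := by decide
    rcases h2 (X (i + k)) with h | h <;> simp [h]
  rw [Finset.sum_congr rfl this]
  simp

/-- The converse of `square_gives`. -/
theorem square_of {X : ℕ → Fin 2} {x : ℕ → ℕ} (hX : x = fun k => (X k : ℕ)) {i n : ℕ} (hn : 0 < n)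
    (hA : NN x i + NN x (i + n + n) - 2 * NN x (i + n) = 0)
    (hT : TT x i + TT x (i + n + n) - 2 * TT x (i + n) = ne01 (x i) (prv x (i + n)) - ne01 (x i) (prv x i))
    (hx : x i = x (i + n)) (hp : prv x (i + n) = prv x (i + n + n)) :
    KAb 2 (factor X i n) (factor X (i + n) n) := by
  obtain ⟨m, rfl⟩ : ∃ m, n = m + 1 := ⟨n - 1, by omega⟩
  obtain ⟨a1, a2, a3, a4⟩ := counts X i m
  obtain ⟨b1, b2, b3, b4⟩ := counts X (i + (m + 1)) m
  have a5 := occ_two_sum X i m
  have b5 := occ_two_sum X (i + (m + 1)) m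
  have a6 := occ_one_sum X i (m + 1)
  have b6 := occ_one_sum X (i + (m + 1)) (m + 1)
  rw [← hX] at a3 a4 b3 b4
  have p1 : prv x (i + (m + 1)) = x (i + m) := by
    rw [prv, if_neg (by omega)]
    rfl
  have p2 : prv x (i + (m + 1) + (m + 1)) = x (i + (m + 1) + m) := by
    rw [prv, if_neg (by omega)]
    rfl
  have xv : ∀ k, (X k : ℕ) = x k := by intro k; rw [hX]
  rw [xv] at a1 a2 a4 b1 b2 b4
  rw [← hx] at b1 b4
  rw [p1, p2] at hp
  rw [← hp] at b2
  have o1 : (occ [1] (factor X i (m + 1)) : ℤ) = occ [1] (factor X (i + (m + 1)) (m + 1)) := by linarith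
  have oT : (occ [0, 1] (factor X i (m + 1)) : ℤ) + occ [1, 0] (factor X i (m + 1))
      = occ [0, 1] (factor X (i + (m + 1)) (m + 1)) + occ [1, 0] (factor X (i + (m + 1)) (m + 1)) := by
    linarith
  have o01 : (occ [0, 1] (factor X i (m + 1)) : ℤ) = occ [0, 1] (factor X (i + (m + 1)) (m + 1)) := by linarith
  have o10 : (occ [1, 0] (factor X i (m + 1)) : ℤ) = occ [1, 0] (factor X (i + (m + 1)) (m + 1)) := by linarith
  have o11 : (occ [1, 1] (factor X i (m + 1)) : ℤ) = occ [1, 1] (factor X (i + (m + 1)) (m + 1)) := by linarith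
  have o00 : (occ [0, 0] (factor X i (m + 1)) : ℤ) = occ [0, 0] (factor X (i + (m + 1)) (m + 1)) := by linarith
  have o0 : (occ [0] (factor X i (m + 1)) : ℤ) = occ [0] (factor X (i + (m + 1)) (m + 1)) := by linarith
  have h2 : ∀ t : Fin 2, t = 0 ∨ t = 1 := by decide
  intro w hw1 hw2
  rcases w with _ | ⟨a, _ | ⟨b, _ | ⟨c, w⟩⟩⟩
  · simp at hw1
  · rcases h2 a with rfl | rfl
    · exact_mod_cast o0
    · exact_mod_cast o1
  · rcases h2 a with rfl | rfl <;> rcases h2 b with rfl | rfl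
    · exact_mod_cast o00
    · exact_mod_cast o01
    · exact_mod_cast o10
    · exact_mod_cast o11
  · simp at hw2

/-- partial sums of the bits -/
def cN (v : ℕ) : ℕ → ℕ
  | 0 => 0
  | n + 1 => cN v n + bitA v n

/-- previous bit -/
def pb (v n : ℕ) : ℕ := if n = 0 then 0 else bitA v (n - 1)

/-- `0` if equal, `1` if different -/
def nn (u v : ℕ) : ℕ := if u = v then 0 else 1

/-- changes of the bits -/
def cT (v : ℕ) : ℕ → ℕ
  | 0 => 0
  | n + 1 => cT v n + nn (bitA v n) (pb v n)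

/-- test of a square at `i` of period `n` -/
def sqT (v i n : ℕ) : Bool :=
  Nat.beq (bitA v i) (bitA v (i + n)) && Nat.beq (pb v (i + n)) (pb v (i + n + n)) &&
  Nat.beq (cN v i + cN v (i + n + n)) (2 * cN v (i + n)) &&
  Nat.beq (cT v i + cT v (i + n + n) + nn (bitA v i) (pb v i)) (2 * cT v (i + n) + nn (bitA v i) (pb v (i + n)))

/-- some square of period at least `2` ends at `m` -/
def badT (m v : ℕ) : ℕ → Bool
  | 0 => false
  | k + 1 => (Nat.ble (2 * (k + 2)) m && sqT v (m - 2 * (k + 2)) (k + 2)) || badT m v k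

theorem badT_sound {m v : ℕ} : ∀ k, badT m v k = true → ∃ n, 2 ≤ n ∧ 2 * n ≤ m ∧ sqT v (m - 2 * n) n = true := by
  intro k
  induction k with
  | zero => intro h; simp [badT] at h
  | succ k ih =>
    intro h
    rw [badT, Bool.or_eq_true, Bool.and_eq_true] at h
    rcases h with ⟨h1, h2⟩ | h
    · exact ⟨k + 2, by omega, Nat.le_of_ble_eq_true h1, h2⟩
    · exact ih h

/-- all extensions meet a square -/
def dfs : ℕ → ℕ → ℕ → Bool
  | 0, m, v => badT m v 8
  | f + 1, m, v => badT m v 8 || (dfs f (m + 1) v && dfs f (m + 1) (v + 2 ^ m))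

/-- the number of the first `m` letters -/
def VV (x : ℕ → ℕ) (m : ℕ) : ℕ := ∑ k ∈ range m, x k * 2 ^ k

theorem VV_lt {x : ℕ → ℕ} (hx : ∀ k, x k < 2) (m : ℕ) : VV x m < 2 ^ m := by
  induction m with
  | zero => simp [VV]
  | succ m ih =>
    rw [VV, Finset.sum_range_succ, ← VV, pow_succ]
    have := hx m
    have h2 : x m * 2 ^ m ≤ 1 * 2 ^ m := Nat.mul_le_mul_right _ (by omega)
    omega

theorem bit_VV {x : ℕ → ℕ} (hx : ∀ k, x k < 2) : ∀ m k, k < m → bitA (VV x m) k = x k := by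
  intro m
  induction m with
  | zero => intro k hk; omega
  | succ m ih =>
    intro k hk
    have hlt := VV_lt hx m
    rw [VV, Finset.sum_range_succ, ← VV, bitA, Nat.shiftRight_eq_div_pow]
    rcases Nat.lt_succ_iff_lt_or_eq.mp hk with h | h
    · have ihk := ih k h
      rw [bitA, Nat.shiftRight_eq_div_pow] at ihk
      obtain ⟨e, rfl⟩ : ∃ e, m = k + 1 + e := ⟨m - k - 1, by omega⟩
      have e1 : x (k + 1 + e) * 2 ^ (k + 1 + e) = 2 ^ k * (2 * (x (k + 1 + e) * 2 ^ e)) := by ring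
      rw [e1, Nat.add_mul_div_left _ _ (Nat.two_pow_pos k), Nat.add_mul_mod_self_left]
      exact ihk
    · rw [h, mul_comm, Nat.add_mul_div_left _ _ (Nat.two_pow_pos m), Nat.div_eq_of_lt hlt, zero_add,
        Nat.mod_eq_of_lt (hx m)]

theorem dfs_sound {x : ℕ → ℕ} (hx : ∀ k, x k < 2) : ∀ f m, dfs f m (VV x m) = true →
    ∃ m', badT m' (VV x m') 8 = true := by
  intro f
  induction f with
  | zero => intro m h; exact ⟨m, h⟩
  | succ f ih =>
    intro m h
    rw [dfs, Bool.or_eq_true, Bool.and_eq_true] at h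
    rcases h with h | ⟨h1, h2⟩
    · exact ⟨m, h⟩
    · have hm := hx m
      have e : VV x (m + 1) = VV x m + x m * 2 ^ m := by rw [VV, Finset.sum_range_succ, ← VV]
      obtain h0 | h0 : x m = 0 ∨ x m = 1 := by omega
      · apply ih (m + 1)
        rw [e, h0, zero_mul, add_zero]; exact h1
      · apply ih (m + 1)
        rw [e, h0, one_mul]; exact h2

theorem nn_cast (u v : ℕ) : ((nn u v : ℕ) : ℤ) = ne01 u v := by
  rw [nn, ne01]; split_ifs <;> simp

theorem pb_eq {x : ℕ → ℕ} (hx : ∀ k, x k < 2) (m k : ℕ) (hk : k ≤ m) : pb (VV x m) k = prv x k := by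
  rw [pb, prv]
  split_ifs with h
  · rfl
  · exact bit_VV hx m (k - 1) (by omega)

theorem cN_eq {x : ℕ → ℕ} (hx : ∀ k, x k < 2) (m : ℕ) : ∀ k, k ≤ m → (cN (VV x m) k : ℤ) = NN x k := by
  intro k
  induction k with
  | zero => intro _; simp [cN, NN]
  | succ k ih =>
    intro hk
    rw [cN, NN, Finset.sum_range_succ, ← NN, ← ih (by omega), bit_VV hx m k (by omega)]
    push_cast; ring

theorem cT_eq {x : ℕ → ℕ} (hx : ∀ k, x k < 2) (m : ℕ) : ∀ k, k ≤ m → (cT (VV x m) k : ℤ) = TT x k := by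
  intro k
  induction k with
  | zero => intro _; simp [cT, TT]
  | succ k ih =>
    intro hk
    rw [cT, TT, Finset.sum_range_succ, ← TT, ← ih (by omega), bit_VV hx m k (by omega),
      pb_eq hx m k (by omega)]
    push_cast
    rw [nn_cast]

theorem tree : dfs 19 0 0 = true := by decide +kernel

/-- 2-abelian squares of period at least `2` are unavoidable. -/
theorem not_avoidable_two : ¬ Avoidable 2 := by
  rintro ⟨X, hX⟩
  have hlt : ∀ k, ((X k : Fin 2) : ℕ) < 2 := fun k => (X k).isLt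
  obtain ⟨m, hm⟩ := dfs_sound (x := fun k => ((X k : Fin 2) : ℕ)) hlt 19 0 (by
    have : VV (fun k => ((X k : Fin 2) : ℕ)) 0 = 0 := by simp [VV]
    rw [this]; exact tree)
  obtain ⟨n, hn, hnm, hs⟩ := badT_sound 8 hm
  obtain ⟨i, rfl⟩ : ∃ i, m = i + n + n := ⟨m - 2 * n, by omega⟩
  have hi : i + n + n - 2 * n = i := by omega
  rw [hi] at hs
  simp only [sqT, Bool.and_eq_true] at hs
  obtain ⟨⟨⟨h1, h2⟩, h3⟩, h4⟩ := hs
  have h1 := Nat.eq_of_beq_eq_true h1
  have h2 := Nat.eq_of_beq_eq_true h2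
  have h3 := Nat.eq_of_beq_eq_true h3
  have h4 := Nat.eq_of_beq_eq_true h4
  rw [bit_VV hlt _ _ (by omega), bit_VV hlt _ _ (by omega)] at h1
  rw [pb_eq hlt _ _ (by omega), pb_eq hlt _ _ (by omega)] at h2
  rw [bit_VV hlt _ _ (by omega), pb_eq hlt _ _ (by omega), pb_eq hlt _ _ (by omega)] at h4
  have z3 : ((cN (VV (fun k => ((X k : Fin 2) : ℕ)) (i + n + n)) i : ℕ) : ℤ)
      + (cN (VV (fun k => ((X k : Fin 2) : ℕ)) (i + n + n)) (i + n + n) : ℕ)
      = 2 * (cN (VV (fun k => ((X k : Fin 2) : ℕ)) (i + n + n)) (i + n) : ℕ) := by exact_mod_cast h3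
  rw [cN_eq hlt _ _ (by omega), cN_eq hlt _ _ le_rfl, cN_eq hlt _ _ (by omega)] at z3
  have z4 : ((cT (VV (fun k => ((X k : Fin 2) : ℕ)) (i + n + n)) i : ℕ) : ℤ)
      + (cT (VV (fun k => ((X k : Fin 2) : ℕ)) (i + n + n)) (i + n + n) : ℕ)
      + (nn ((X i : Fin 2) : ℕ) (prv (fun k => ((X k : Fin 2) : ℕ)) i) : ℕ)
      = 2 * (cT (VV (fun k => ((X k : Fin 2) : ℕ)) (i + n + n)) (i + n) : ℕ)
      + (nn ((X i : Fin 2) : ℕ) (prv (fun k => ((X k : Fin 2) : ℕ)) (i + n)) : ℕ) := by exact_mod_cast h4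
  rw [cT_eq hlt _ _ (by omega), cT_eq hlt _ _ le_rfl, cT_eq hlt _ _ (by omega), nn_cast, nn_cast] at z4
  have hk : KAb 2 (factor X i n) (factor X (i + n) n) := by
    apply square_of (x := fun k => ((X k : Fin 2) : ℕ)) rfl (by omega)
    · linarith
    · linarith
    · exact h1
    · exact h2
  have hlen : ∀ j, (factor X j n).length = n := fun j => factor_length X j n
  have hne : ∀ j, factor X j n ≠ [] := by
    intro j h
    have := hlen j
    rw [h] at this
    simp at this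
    omega
  have := hX i (factor X i n) (factor X (i + n) n) (hne _) (hne _) (by
    rw [hlen, hlen, factor_append]) hk
  rw [hlen] at this
  omega

theorem Avoidable.mono {k l : ℕ} (h : Avoidable k) (hkl : k ≤ l) : Avoidable l := by
  obtain ⟨X, hX⟩ := h
  exact ⟨X, fun i u v hu hv hf hk => lt_of_lt_of_le (hX i u v hu hv hf hk) hkl⟩

/-- the bounds for the least avoidable period -/
theorem bounds {P : ℕ} (hP : 1 ≤ P) (h : Avoidable P) (k₀ : ℕ)
    (hk : IsLeast {k : ℕ | 1 ≤ k ∧ Avoidable k} k₀) : 3 ≤ k₀ ∧ k₀ ≤ P := by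
  refine ⟨?_, hk.2 ⟨hP, h⟩⟩
  by_contra hlt
  exact not_avoidable_two (hk.1.2.mono (by omega))

end Pool.Agent.H97.TA
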